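import Pool.Agent.K1H41.OV.Stm

/-!
# Project OV: critical points of `psi` (S_CRIT)
-/

set_option autoImplicit false

namespace Pool.Agent.K1H78.OV

open Pool.Agent.K1H41.OV
open scoped RealInnerProductSpace Topology ContDiff

theorem t_CRIT (h1 : S_VV) : S_CRIT := by
  intro h v₀ e₁ e₂ hh F ℓ z hz hc
  obtain ⟨hn, -, -, -, hV, -, hinj⟩ := h1 v₀ e₁ e₂ F
  obtain ⟨-, -, hV1⟩ := hn z
  set V := VV v₀ e₁ e₂ z with hVdef
  have hVne : V ≠ 0 := by
    intro h0; rw [h0, norm_zero] at hV1; exact zero_ne_one hV1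
  refine ⟨hV1, ?_⟩
  have hVd : HasFDerivAt (VV v₀ e₁ e₂) (fderiv ℝ (VV v₀ e₁ e₂) z) z :=
    (hV.differentiable (by simp) z).hasFDerivAt
  set DV := fderiv ℝ (VV v₀ e₁ e₂) z with hDV
  -- the function q
  have hhd : HasFDerivAt h (fderiv ℝ h V) V := by
    have : ContDiffAt ℝ ∞ h V := (hh.smooth V hVne).contDiffAt
      (isOpen_compl_singleton.mem_nhds hVne)
    exact (this.differentiableAt (by simp)).hasFDerivAt
  set p := gradient h v₀ - ℓ • v₀ with hp
  have hq : HasFDerivAt (fun v => h v - ⟪p, v⟫ - ℓ) (fderiv ℝ h V - innerSL ℝ p) V :=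
    (hhd.sub (innerSL ℝ p).hasFDerivAt).sub_const ℓ
  have hcomp : HasFDerivAt (fun z => h (VV v₀ e₁ e₂ z) - ⟪p, VV v₀ e₁ e₂ z⟫ - ℓ)
      ((fderiv ℝ h V - innerSL ℝ p).comp DV) z :=
    HasFDerivAt.comp (g := fun v => h v - ⟪p, v⟫ - ℓ) (f := VV v₀ e₁ e₂) z hq hVd
  have hv0 : v₀ ≠ 0 := by
    intro h0; have := F.n0; rw [h0, norm_zero] at this; exact zero_ne_one this
  have heq : (fun z => h (VV v₀ e₁ e₂ z) - ⟪p, VV v₀ e₁ e₂ z⟫ - ℓ) = psi h v₀ e₁ e₂ ℓ := by
    funext z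
    unfold psi d1
    rw [hp, inner_sub_left, inner_smul_left]
    have : ⟪gradient h v₀, VV v₀ e₁ e₂ z⟫ = fderiv ℝ h v₀ (VV v₀ e₁ e₂ z) := by
      unfold gradient
      exact InnerProductSpace.toDual_symm_apply
    rw [this]
    rfl
  rw [heq] at hcomp
  have hzero : (fderiv ℝ h V - innerSL ℝ p).comp DV = 0 := by
    rw [← hc]; exact hcomp.fderiv.symm
  -- the range of DV
  have horth : ∀ ξ, ⟪V, DV ξ⟫ = 0 := by
    intro ξ
    have h2 : HasFDerivAt (fun z => ‖VV v₀ e₁ e₂ z‖ ^ 2) ((2 • innerSL ℝ V).comp DV) z :=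
      HasFDerivAt.comp (g := fun v : E3 => ‖v‖ ^ 2) (f := VV v₀ e₁ e₂) z
        (hasStrictFDerivAt_norm_sq V).hasFDerivAt hVd
    have h3 : (fun z => ‖VV v₀ e₁ e₂ z‖ ^ 2) = fun _ => (1 : ℝ) := by
      funext z; rw [(hn z).2.2]; norm_num
    rw [h3] at h2
    have h4 := h2.unique (hasFDerivAt_const (1 : ℝ) z)
    have h5 := DFunLike.congr_fun h4 ξ
    simp at h5
    exact h5
  have hinj' : Function.Injective DV.toLinearMap := by
    rw [← LinearMap.ker_eq_bot, LinearMap.ker_eq_bot']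
    intro ξ hξ
    exact hinj z hz ξ hξ
  have hrange : LinearMap.range DV.toLinearMap = (Submodule.span ℝ {V})ᗮ := by
    apply Submodule.eq_of_le_of_finrank_eq
    · rintro _ ⟨ξ, rfl⟩
      rw [Submodule.mem_orthogonal_singleton_iff_inner_right]
      exact horth ξ
    · rw [LinearMap.finrank_range_of_inj hinj']
      have h6 := Submodule.finrank_add_finrank_orthogonal (Submodule.span ℝ {V})
      rw [finrank_span_singleton hVne, finrank_euclideanSpace_fin] at h6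
      rw [Complex.finrank_real_complex]
      omega
  intro w hw
  have hw' : w ∈ LinearMap.range DV.toLinearMap := by
    rw [hrange, Submodule.mem_orthogonal_singleton_iff_inner_right]
    exact hw
  obtain ⟨ξ, rfl⟩ := hw'
  have h7 := DFunLike.congr_fun hzero ξ
  simp at h7
  unfold d1
  exact sub_eq_zero.1 h7

end Pool.Agent.K1H78.OV
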