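import Pool.Agent.K1H41.OV.Stm

/-!
# Project OV: the map to the sphere (S_VV)
-/

set_option autoImplicit false

namespace Pool.Agent.K1H78.OV

open Pool.Agent.K1H41.OV
open scoped RealInnerProductSpace Topology ContDiff

variable {v₀ e₁ e₂ : E3}

lemma nn_pos (z : ℂ) : 0 < nn z := by
  unfold nn
  nlinarith [sq_nonneg (‖z‖ ^ 2 - 1 / 2), sq_nonneg (‖z‖)]

lemma in0 (F : Frame v₀ e₁ e₂) (z : ℂ) :
    ⟪v₀, YY v₀ e₁ e₂ z⟫ = ‖z‖ ^ 2 - (1 - ‖z‖ ^ 2) ^ 2 := by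
  unfold YY hat
  simp only [inner_add_right, inner_smul_right, F.o01, F.o02, real_inner_self_eq_norm_sq, F.n0]
  ring

lemma in1 (F : Frame v₀ e₁ e₂) (z : ℂ) :
    ⟪e₁, YY v₀ e₁ e₂ z⟫ = 2 * (1 - ‖z‖ ^ 2) * z.re := by
  unfold YY hat
  have h1 : ⟪e₁, v₀⟫ = 0 := by rw [real_inner_comm]; exact F.o01
  simp only [inner_add_right, inner_smul_right, h1, F.o12, real_inner_self_eq_norm_sq, F.n1]
  ring

lemma in2 (F : Frame v₀ e₁ e₂) (z : ℂ) :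
    ⟪e₂, YY v₀ e₁ e₂ z⟫ = 2 * (1 - ‖z‖ ^ 2) * z.im := by
  unfold YY hat
  have h1 : ⟪e₂, v₀⟫ = 0 := by rw [real_inner_comm]; exact F.o02
  have h2 : ⟪e₂, e₁⟫ = 0 := by rw [real_inner_comm]; exact F.o12
  simp only [inner_add_right, inner_smul_right, h1, h2, real_inner_self_eq_norm_sq, F.n2]
  ring

lemma nsq (z : ℂ) : ‖z‖ ^ 2 = z.re ^ 2 + z.im ^ 2 := by
  rw [Complex.sq_norm, Complex.normSq_apply]; ring

lemma nYY (F : Frame v₀ e₁ e₂) (z : ℂ) : ‖YY v₀ e₁ e₂ z‖ = nn z := by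
  have h : ‖YY v₀ e₁ e₂ z‖ ^ 2 = nn z ^ 2 := by
    rw [← real_inner_self_eq_norm_sq]
    conv_lhs => arg 2; unfold YY hat
    simp only [inner_add_left, inner_smul_left, in0 F, in1 F, in2 F]
    simp only [conj_trivial]
    unfold nn
    have := nsq z
    have h3 : 2 * (1 - ‖z‖ ^ 2) * (z.re * (2 * (1 - ‖z‖ ^ 2) * z.re) +
        z.im * (2 * (1 - ‖z‖ ^ 2) * z.im)) = 4 * (1 - ‖z‖ ^ 2) ^ 2 * (z.re ^ 2 + z.im ^ 2) := by
      ring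
    rw [h3, ← this]
    ring
  nlinarith [norm_nonneg (YY v₀ e₁ e₂ z), nn_pos z, sq_nonneg (‖YY v₀ e₁ e₂ z‖ - nn z)]

lemma cdYY : ContDiff ℝ ∞ (YY v₀ e₁ e₂) := by
  have h1 : ContDiff ℝ ∞ (fun z : ℂ => ‖z‖ ^ 2) := contDiff_norm_sq ℝ
  have h2 : ContDiff ℝ ∞ (fun z : ℂ => z.re) := Complex.reCLM.contDiff
  have h3 : ContDiff ℝ ∞ (fun z : ℂ => z.im) := Complex.imCLM.contDiff
  unfold YY hat
  fun_prop

lemma cdnn : ContDiff ℝ ∞ nn := by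
  have h1 : ContDiff ℝ ∞ (fun z : ℂ => ‖z‖ ^ 2) := contDiff_norm_sq ℝ
  unfold nn
  fun_prop

lemma cdVV : ContDiff ℝ ∞ (VV v₀ e₁ e₂) := by
  unfold VV
  exact (cdnn.inv (fun z => (nn_pos z).ne')).smul cdYY

/-- the first coordinate on the sphere -/
lemma gg (F : Frame v₀ e₁ e₂) (z : ℂ) :
    1 - ⟪v₀, VV v₀ e₁ e₂ z⟫ = 2 * (1 - ‖z‖ ^ 2) ^ 2 / nn z := by
  unfold VV
  rw [inner_smul_right, in0 F, eq_div_iff (nn_pos z).ne']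
  have := (nn_pos z).ne'
  field_simp
  unfold nn
  ring

lemma wpos {z : ℂ} (hz : ‖z‖ < 1) : 0 < 1 - ‖z‖ ^ 2 := by
  nlinarith [norm_nonneg z]

/-- the left inverse, up to the factor `1 - |z|^2` -/
lemma inv1 (F : Frame v₀ e₁ e₂) (z : ℂ) (hz : ‖z‖ < 1) :
    (1 - ⟪v₀, VV v₀ e₁ e₂ z⟫)⁻¹ • ((⟪e₁, VV v₀ e₁ e₂ z⟫ : ℂ) +
      (⟪e₂, VV v₀ e₁ e₂ z⟫ : ℂ) * Complex.I) = (1 - ‖z‖ ^ 2)⁻¹ • z := by
  rw [gg F z]
  have hw := wpos hz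
  have hn := nn_pos z
  apply Complex.ext
  · simp only [Complex.smul_re, Complex.add_re, Complex.ofReal_re, Complex.mul_re,
      Complex.I_re, Complex.I_im, Complex.ofReal_im, smul_eq_mul]
    unfold VV
    rw [inner_smul_right, in1 F]
    field_simp
    ring
  · simp only [Complex.smul_im, Complex.add_im, Complex.ofReal_re, Complex.mul_im,
      Complex.I_re, Complex.I_im, Complex.ofReal_im, smul_eq_mul]
    unfold VV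
    rw [inner_smul_right, in2 F]
    field_simp
    ring

lemma inj1 {z z' : ℂ} (hz : ‖z‖ < 1) (hz' : ‖z'‖ < 1)
    (h : (1 - ‖z‖ ^ 2)⁻¹ • z = (1 - ‖z'‖ ^ 2)⁻¹ • z') : z = z' := by
  have hw := wpos hz
  have hw' := wpos hz'
  have hn : (1 - ‖z‖ ^ 2)⁻¹ * ‖z‖ = (1 - ‖z'‖ ^ 2)⁻¹ * ‖z'‖ := by
    have := congrArg norm h
    rwa [norm_smul, norm_smul, Real.norm_of_nonneg (inv_nonneg.2 hw.le),
      Real.norm_of_nonneg (inv_nonneg.2 hw'.le)] at this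
  have h2 : ‖z‖ * (1 - ‖z'‖ ^ 2) = ‖z'‖ * (1 - ‖z‖ ^ 2) := by
    field_simp at hn
    linarith
  have h3 : (‖z‖ - ‖z'‖) * (1 + ‖z‖ * ‖z'‖) = 0 := by linarith
  have h4 : ‖z‖ = ‖z'‖ := by
    rcases mul_eq_zero.1 h3 with h | h
    · linarith
    · have := mul_nonneg (norm_nonneg z) (norm_nonneg z')
      linarith
  rw [h4] at h
  have := smul_right_injective ℂ (inv_ne_zero hw'.ne') h
  exact this

lemma t_VV_aux (F : Frame v₀ e₁ e₂) (z : ℂ) (hz : ‖z‖ < 1) (ξ : ℂ)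
    (h0 : fderiv ℝ (VV v₀ e₁ e₂) z ξ = 0) : ξ = 0 := by
  have hw := wpos hz
  have hn := nn_pos z
  let G : E3 → ℂ := fun V => (1 - ⟪v₀, V⟫)⁻¹ • ((⟪e₁, V⟫ : ℂ) + (⟪e₂, V⟫ : ℂ) * Complex.I)
  let g : ℂ → ℂ := fun z => (1 - ‖z‖ ^ 2)⁻¹ • z
  have hV : DifferentiableAt ℝ (VV v₀ e₁ e₂) z := cdVV.differentiable (by simp) z
  have hG : DifferentiableAt ℝ G (VV v₀ e₁ e₂ z) := by
    have hne : 1 - ⟪v₀, VV v₀ e₁ e₂ z⟫ ≠ 0 := by
      rw [gg F z]; positivity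
    have h1 : DifferentiableAt ℝ (fun V : E3 => 1 - ⟪v₀, V⟫) (VV v₀ e₁ e₂ z) :=
      (innerSL ℝ v₀).differentiableAt.const_sub 1
    have h2 : DifferentiableAt ℝ (fun V : E3 => ((⟪e₁, V⟫ : ℝ) : ℂ)) (VV v₀ e₁ e₂ z) :=
      Complex.ofRealCLM.differentiableAt.comp _ (innerSL ℝ e₁).differentiableAt
    have h3 : DifferentiableAt ℝ (fun V : E3 => ((⟪e₂, V⟫ : ℝ) : ℂ)) (VV v₀ e₁ e₂ z) :=
      Complex.ofRealCLM.differentiableAt.comp _ (innerSL ℝ e₂).differentiableAt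
    exact (h1.inv hne).smul (h2.add (h3.mul_const _))
  have hc : (fun z' => G (VV v₀ e₁ e₂ z')) =ᶠ[𝓝 z] g := by
    have : ∀ᶠ z' : ℂ in 𝓝 z, ‖z'‖ < 1 := continuous_norm.continuousAt.eventually_lt_const hz
    filter_upwards [this] with z' hz'
    exact inv1 F z' hz'
  have h1 : HasFDerivAt (fun z' => G (VV v₀ e₁ e₂ z'))
      ((fderiv ℝ G (VV v₀ e₁ e₂ z)).comp (fderiv ℝ (VV v₀ e₁ e₂) z)) z :=
    hG.hasFDerivAt.comp z hV.hasFDerivAt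
  have h2 : HasFDerivAt g ((fderiv ℝ G (VV v₀ e₁ e₂ z)).comp (fderiv ℝ (VV v₀ e₁ e₂) z)) z :=
    h1.congr_of_eventuallyEq hc.symm
  have h3 : HasFDerivAt (fun z : ℂ => 1 - ‖z‖ ^ 2) (-(2 • (innerSL ℝ z))) z := by
    have := (hasStrictFDerivAt_norm_sq z).hasFDerivAt.const_sub (1 : ℝ)
    exact this
  have h4 : HasFDerivAt (fun z : ℂ => (1 - ‖z‖ ^ 2) • g z)
      ((1 - ‖z‖ ^ 2) • ((fderiv ℝ G (VV v₀ e₁ e₂ z)).comp (fderiv ℝ (VV v₀ e₁ e₂) z)) +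
        (-(2 • (innerSL ℝ z))).smulRight (g z)) z := h3.smul h2
  have h5 : (fun z : ℂ => (1 - ‖z‖ ^ 2) • g z) =ᶠ[𝓝 z] id := by
    have : ∀ᶠ z' : ℂ in 𝓝 z, ‖z'‖ < 1 := continuous_norm.continuousAt.eventually_lt_const hz
    filter_upwards [this] with z' hz'
    simp only [g, id]
    rw [smul_smul, mul_inv_cancel₀ (wpos hz').ne', one_smul]
  have h6 := (h4.congr_of_eventuallyEq h5.symm).unique (hasFDerivAt_id z)
  have h7 := DFunLike.congr_fun h6 ξ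
  simp only [add_apply, smul_apply,
    ContinuousLinearMap.comp_apply, h0, map_zero, smul_zero, zero_add,
    ContinuousLinearMap.smulRight_apply, neg_apply,
    ContinuousLinearMap.id_apply] at h7
  -- ξ = -(2 ⟪z,ξ⟫) • g z
  have h8 : ξ = (-(2 * ⟪z, ξ⟫ * (1 - ‖z‖ ^ 2)⁻¹)) • z := by
    refine h7.symm.trans ?_
    show (-(2 • (innerSL ℝ z) ξ)) • ((1 - ‖z‖ ^ 2)⁻¹ • z) = _
    rw [innerSL_apply_apply, smul_smul]
    congr 1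
    rw [nsmul_eq_mul]
    push_cast
    ring
  have h9 : ‖ξ‖ ^ 2 = -(2 * ⟪z, ξ⟫ * (1 - ‖z‖ ^ 2)⁻¹) * ⟪z, ξ⟫ := by
    rw [← real_inner_self_eq_norm_sq]
    conv_lhs => arg 2; rw [h8]
    rw [inner_smul_left]
    simp
  have h10 : 0 ≤ 2 * ⟪z, ξ⟫ ^ 2 * (1 - ‖z‖ ^ 2)⁻¹ := by positivity
  have h11 : ‖ξ‖ ^ 2 ≤ 0 := by
    rw [h9]
    nlinarith
  have h12 : ‖ξ‖ = 0 := by nlinarith [norm_nonneg ξ]
  exact norm_eq_zero.1 h12

theorem t_VV : S_VV := by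
  intro v₀ e₁ e₂ F
  refine ⟨fun z => ⟨nn_pos z, nYY F z, ?_⟩, ?_, ?_, ?_, cdVV, cdYY, ?_⟩
  · unfold VV
    rw [norm_smul, nYY F, norm_inv, Real.norm_of_nonneg (nn_pos z).le,
      inv_mul_cancel₀ (nn_pos z).ne']
  · intro z hz
    unfold VV YY nn
    rw [hz]
    simp
  · intro z hz h
    have h1 := gg F z
    rw [h, real_inner_self_eq_norm_sq, F.n0] at h1
    have h2 : 0 < 2 * (1 - ‖z‖ ^ 2) ^ 2 / nn z := by
      have hw := wpos hz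
      have hn := nn_pos z
      positivity
    rw [← h1] at h2
    norm_num at h2
  · intro z z' hz hz' h
    apply inj1 hz hz'
    rw [← inv1 F z hz, ← inv1 F z' hz', h]
  · intro z hz ξ h0
    exact t_VV_aux F z hz ξ h0

end Pool.Agent.K1H78.OV
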